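import Pool.Agent.N784.CZ.G.Stm

/-!
# The Hecke character of `y² = x³ - x` over a number field containing `i` (part G2 of project CZ)
-/

set_option autoImplicit false

open NumberField IsDedekindDomain Complex

namespace Pool.Agent.N492.CZ

open Pool.Agent.N784.CZ
open Pool.Agent.Y773 (TPos LI)
open Pool.Agent.Y767 (Mq Cls cls Mq_ne_bot)
open Pool.Agent.N784.AD (pi1 pi1_coe T1 T1_one T1_cop)
open Pool.Agent.N784.HC (Dn ph phT phT_coe)
open Pool.Agent.H304R3.HK (tc)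
open H385 (nrm)
open Pool.Agent.W164.RC (Ip Ip_spec)
open Pool.Agent.H304R2.EC.A1 (prim prim_mul prim_one prim_norm_odd prim_cancel exists_prim
  eq_of_dvd norm_def' re_mul' im_mul' prim_ne_zero)

noncomputable section

/-! ### The Gaussian integers -/

/-- the basis `1, i` -/
def gb : Module.Basis (Fin 2) ℤ GaussianInt := Module.Basis.ofEquivFun
  { toFun := fun z => ![z.re, z.im]
    map_add' := by
      intro x y
      ext i
      fin_cases i <;> simp
    map_smul' := by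
      intro c x
      ext i
      fin_cases i <;> simp
    invFun := fun f => ⟨f 0, f 1⟩
    left_inv := fun z => by ext <;> simp
    right_inv := fun f => by
      ext i
      fin_cases i <;> simp }

instance : Module.Free ℤ GaussianInt := Module.Free.of_basis gb
instance : Module.Finite ℤ GaussianInt := Module.Finite.of_basis gb

lemma alg_norm (z : GaussianInt) : Algebra.norm ℤ z = z.norm := by
  rw [Algebra.norm_eq_matrix_det gb, Matrix.det_fin_two]
  simp only [Algebra.leftMulMatrix_eq_repr_mul]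
  have h0 : gb 0 = (1 : GaussianInt) := by
    rw [gb, Module.Basis.coe_ofEquivFun]
    ext <;> simp
  have h1 : gb 1 = (⟨0, 1⟩ : GaussianInt) := by
    rw [gb, Module.Basis.coe_ofEquivFun]
    ext <;> simp
  have hr : ∀ w : GaussianInt, gb.repr w 0 = w.re ∧ gb.repr w 1 = w.im := by
    intro w
    constructor
    · rw [← Module.Basis.equivFun_apply, gb, Module.Basis.equivFun_ofEquivFun]
      simp
    · rw [← Module.Basis.equivFun_apply, gb, Module.Basis.equivFun_ofEquivFun]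
      simp
  rw [h0, h1, (hr _).1, (hr _).1, (hr _).2, (hr _).2, norm_def']
  simp
  ring

lemma absNorm_gauss (z : GaussianInt) : Ideal.absNorm (Ideal.span {z}) = nrm z := by
  rw [Ideal.absNorm_span_singleton, alg_norm]
  rfl

/-- the embedding of the Gaussian integers -/
def tch : GaussianInt →+* ℂ := GaussianInt.toComplex

lemma tch_apply (z : GaussianInt) : tch z = tc z := by
  rw [tch, GaussianInt.toComplex_def, tc]

lemma tc_mul (x y : GaussianInt) : tc (x * y) = tc x * tc y := by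
  rw [← tch_apply, map_mul, tch_apply, tch_apply]

lemma tc_pow (x : GaussianInt) (n : ℕ) : tc (x ^ n) = tc x ^ n := by
  rw [← tch_apply, map_pow, tch_apply]

lemma tc_one : tc 1 = 1 := by rw [← tch_apply, map_one]

lemma tc_ne {x : GaussianInt} (hx : x ≠ 0) : tc x ≠ 0 := by
  rw [← tch_apply]
  intro h
  apply hx
  have := (GaussianInt.toComplex_eq_zero (x := x)).1 h
  exact this

lemma prim_iff_dvd (z : GaussianInt) : prim z ↔ (⟨2, 2⟩ : GaussianInt) ∣ z - 1 := by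
  constructor
  · rintro ⟨h1, h2⟩
    refine ⟨⟨(z.re + z.im - 1) / 4, z.im / 2 - (z.re + z.im - 1) / 4⟩, ?_⟩
    ext
    · rw [re_mul', Zsqrtd.re_sub, Zsqrtd.re_one]
      show z.re - 1 = 2 * ((z.re + z.im - 1) / 4) - 2 * (z.im / 2 - (z.re + z.im - 1) / 4)
      omega
    · rw [im_mul', Zsqrtd.im_sub, Zsqrtd.im_one]
      show z.im - 0 = 2 * (z.im / 2 - (z.re + z.im - 1) / 4) + 2 * ((z.re + z.im - 1) / 4)
      omega
  · rintro ⟨c, hc⟩
    have h1 := congrArg Zsqrtd.re hc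
    have h2 := congrArg Zsqrtd.im hc
    rw [re_mul', Zsqrtd.re_sub, Zsqrtd.re_one] at h1
    rw [im_mul', Zsqrtd.im_sub, Zsqrtd.im_one] at h2
    simp only at h1 h2
    constructor <;> omega

/-- uniqueness of the primary generator -/
lemma prim_unique {x y : GaussianInt} (hx : prim x) (hy : prim y)
    (h : Ideal.span {x} = Ideal.span {y}) : x = y := by
  have h1 : x ∣ y := Ideal.span_singleton_le_span_singleton.1 h.ge
  have h2 : Associated x y := Ideal.span_singleton_eq_span_singleton.1 h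
  refine eq_of_dvd hx hy ?_ h1
  have h3 := congrArg Ideal.absNorm h
  rw [absNorm_gauss, absNorm_gauss] at h3
  have h4 := GaussianInt.norm_nonneg x
  have h5 := GaussianInt.norm_nonneg y
  unfold nrm at h3
  omega

lemma exists_prim_gen (I : Ideal GaussianInt) {y : GaussianInt} (hy : y ∈ I)
    (h : (⟨2, 2⟩ : GaussianInt) ∣ y - 1) : ∃ z, prim z ∧ I = Ideal.span {z} := by
  obtain ⟨w, hw⟩ := (inferInstance : I.IsPrincipal)
  have hw' : I = Ideal.span {w} := hw
  have h1 : w ∣ y := by rw [← Ideal.mem_span_singleton, ← hw']; exact hy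
  have hpy : prim y := (prim_iff_dvd y).2 h
  have h2 : w.norm % 2 = 1 := by
    obtain ⟨v, hv⟩ := h1
    have h3 := prim_norm_odd hpy
    rw [hv, Zsqrtd.norm_mul] at h3
    have h4 : w.norm % 2 = 0 ∨ w.norm % 2 = 1 := Int.emod_two_eq_zero_or_one _
    rcases h4 with h4 | h4
    · rw [Int.mul_emod, h4] at h3
      simp at h3
    · exact h4
  obtain ⟨u, v, huv, hp⟩ := exists_prim w h2
  refine ⟨u * w, hp, ?_⟩
  rw [hw']
  rw [Ideal.span_singleton_eq_span_singleton]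
  refine ⟨⟨u, v, huv, by rw [mul_comm]; exact huv⟩, ?_⟩
  rw [mul_comm]

/-! ### The norm to the Gaussian integers -/

section

variable {M : Type} [Field M] [NumberField M] [Algebra GaussianInt (𝓞 M)]

instance : Module.Finite GaussianInt (𝓞 M) := Module.Finite.of_restrictScalars_finite ℤ _ _

lemma inj_alg : Function.Injective (algebraMap GaussianInt (𝓞 M)) := by
  rw [injective_iff_map_eq_zero]
  intro z hz
  by_contra h
  have h1 : algebraMap GaussianInt (𝓞 M) (z * star z) = 0 := by rw [map_mul, hz, zero_mul]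
  rw [← Zsqrtd.norm_eq_mul_conj, map_intCast] at h1
  have h2 : z.norm = 0 := by exact_mod_cast h1
  exact h ((GaussianInt.norm_eq_zero).1 h2)

instance : FaithfulSMul GaussianInt (𝓞 M) := (faithfulSMul_iff_algebraMap_injective _ _).2 inj_alg

instance : Module.IsTorsionFree GaussianInt (𝓞 M) := inferInstance

instance : Module.Free GaussianInt (𝓞 M) := inferInstance

lemma norm_sub_one (c : GaussianInt) (x : 𝓞 M) (h : algebraMap GaussianInt (𝓞 M) c ∣ x - 1) :
    c ∣ Algebra.norm GaussianInt x - 1 := by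
  classical
  obtain ⟨y, hy⟩ := h
  have hx : x = 1 + c • y := by rw [Algebra.smul_def, ← hy]; ring
  have b := Module.Free.chooseBasis GaussianInt (𝓞 M)
  rw [Algebra.norm_eq_matrix_det b, hx, map_add, map_one, map_smul,
    ← Ideal.mem_span_singleton, ← Ideal.Quotient.eq_zero_iff_mem, map_sub, map_one,
    RingHom.map_det, map_add, map_one]
  have h1 : (Ideal.Quotient.mk (Ideal.span {c})).mapMatrix (c • Algebra.leftMulMatrix b y) = 0 := by
    ext i j
    rw [RingHom.mapMatrix_apply, Matrix.map_apply, Matrix.smul_apply, smul_eq_mul, map_mul,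
      Ideal.Quotient.eq_zero_iff_mem.2 (Ideal.mem_span_singleton_self c), zero_mul]
    rfl
  rw [h1, add_zero, Matrix.det_one, sub_self]


instance : CharZero (FractionRing GaussianInt) :=
  charZero_of_injective_algebraMap (IsFractionRing.injective GaussianInt (FractionRing GaussianInt))

lemma ringHom_ext' {R : Type} [Ring R] {f g : GaussianInt →+* R} (h : f ⟨0, 1⟩ = g ⟨0, 1⟩) :
    f = g := Zsqrtd.hom_ext f g h

lemma tc_norm (x : 𝓞 M) : tc (Algebra.norm GaussianInt x) =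
    ∏ φ : M →+* ℂ, (φ (x : M)) ^ (tyi (algebraMap GaussianInt (𝓞 M)) φ) := by
  classical
  letI a1 : Algebra GaussianInt M :=
    ((algebraMap (𝓞 M) M).comp (algebraMap GaussianInt (𝓞 M))).toAlgebra
  have : IsScalarTower GaussianInt (𝓞 M) M := IsScalarTower.of_algebraMap_eq' rfl
  have : FaithfulSMul GaussianInt M := (faithfulSMul_iff_algebraMap_injective _ _).2
    ((IsFractionRing.injective (𝓞 M) M).comp inj_alg)
  letI a3 : Algebra (FractionRing GaussianInt) M := FractionRing.liftAlgebra GaussianInt M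
  letI a2 : Algebra GaussianInt ℂ := tch.toAlgebra
  have : FaithfulSMul GaussianInt ℂ := (faithfulSMul_iff_algebraMap_injective _ _).2
    GaussianInt.toComplex_injective
  letI a4 : Algebra (FractionRing GaussianInt) ℂ := FractionRing.liftAlgebra GaussianInt ℂ
  have : IsScalarTower ℚ (FractionRing GaussianInt) M :=
    IsScalarTower.of_algebraMap_eq' (Subsingleton.elim _ _)
  have : FiniteDimensional (FractionRing GaussianInt) M :=
    Module.Finite.of_restrictScalars_finite ℚ _ _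
  have : IsIntegralClosure (𝓞 M) GaussianInt M := IsIntegralClosure.of_isIntegrallyClosed _ _ _
  have h1 := Algebra.algebraMap_intNorm (K := FractionRing GaussianInt) (L := M)
    (A := GaussianInt) (B := 𝓞 M) x
  rw [Algebra.intNorm_eq_norm] at h1
  have h2 := Algebra.norm_eq_prod_embeddings (FractionRing GaussianInt) ℂ (x : M)
  rw [← h1, ← IsScalarTower.algebraMap_apply] at h2
  have h3 : algebraMap GaussianInt ℂ (Algebra.norm GaussianInt x) =
      tc (Algebra.norm GaussianInt x) := tch_apply _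
  rw [← h3, h2]
  have h4 : ∏ φ : M →+* ℂ, (φ (x : M)) ^ (tyi (algebraMap GaussianInt (𝓞 M)) φ) =
      ∏ φ ∈ Finset.univ.filter (fun φ : M →+* ℂ =>
        φ ((algebraMap GaussianInt (𝓞 M) ⟨0, 1⟩ : 𝓞 M) : M) = I), φ (x : M) := by
    rw [Finset.prod_filter]
    refine Finset.prod_congr rfl fun φ _ => ?_
    unfold tyi
    split_ifs <;> simp
  rw [h4]
  refine Finset.prod_bij (fun σ _ => (σ : M →+* ℂ)) ?_ ?_ ?_ ?_
  · intro σ _
    rw [Finset.mem_filter]
    refine ⟨Finset.mem_univ _, ?_⟩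
    have h5 : ((algebraMap GaussianInt (𝓞 M) ⟨0, 1⟩ : 𝓞 M) : M) =
        algebraMap (FractionRing GaussianInt) M
          (algebraMap GaussianInt (FractionRing GaussianInt) ⟨0, 1⟩) := by
      rw [← IsScalarTower.algebraMap_apply]
      rfl
    rw [h5]
    show σ _ = I
    rw [σ.commutes, ← IsScalarTower.algebraMap_apply]
    show tch ⟨0, 1⟩ = I
    rw [tch_apply, tc]
    simp
  · intro σ _ τ _ h
    exact AlgHom.coe_ringHom_injective h
  · intro φ hφ
    rw [Finset.mem_filter] at hφ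
    refine ⟨⟨φ, ?_⟩, Finset.mem_univ _, ?_⟩
    · intro r
      have h6 : φ.comp (algebraMap (FractionRing GaussianInt) M) =
          algebraMap (FractionRing GaussianInt) ℂ := by
        apply IsLocalization.ringHom_ext (nonZeroDivisors GaussianInt)
        apply ringHom_ext'
        show φ (algebraMap (FractionRing GaussianInt) M
          (algebraMap GaussianInt (FractionRing GaussianInt) ⟨0, 1⟩)) =
          algebraMap (FractionRing GaussianInt) ℂ
            (algebraMap GaussianInt (FractionRing GaussianInt) ⟨0, 1⟩)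
        rw [← IsScalarTower.algebraMap_apply, ← IsScalarTower.algebraMap_apply]
        have h7 : φ ((algebraMap GaussianInt (𝓞 M) ⟨0, 1⟩ : 𝓞 M) : M) = I := hφ.2
        refine h7.trans ?_
        show I = tch ⟨0, 1⟩
        rw [tch_apply, tc]
        simp
      exact congrArg (fun f => f r) h6
    · rfl
  · intro σ _
    rfl

/-- the primary generator of the norm of an ideal prime to `2 + 2i` -/
lemma exists_w {𝔮 : Ideal (𝓞 M)} (h𝔮 : 𝔮 ≤ Ideal.span {algebraMap GaussianInt (𝓞 M) ⟨2, 2⟩})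
    (𝔞 : Mq 𝔮) : ∃ z, prim z ∧ Ideal.relNorm GaussianInt (𝔞 : Ideal (𝓞 M)) = Ideal.span {z} := by
  have h1 : IsCoprime (𝔞 : Ideal (𝓞 M)) 𝔮 := 𝔞.2
  obtain ⟨a, ha, b, hb, hab⟩ := Ideal.isCoprime_iff_exists.1 h1
  refine exists_prim_gen _ (Ideal.norm_mem_relNorm _ _ ha) ?_
  apply norm_sub_one
  rw [← Ideal.mem_span_singleton]
  have : a - 1 = -b := by rw [← hab]; ring
  rw [this, Ideal.neg_mem_iff]
  exact h𝔮 hb

/-- the primary generator -/
def ww {𝔮 : Ideal (𝓞 M)} (h𝔮 : 𝔮 ≤ Ideal.span {algebraMap GaussianInt (𝓞 M) ⟨2, 2⟩})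
    (𝔞 : Mq 𝔮) : GaussianInt := (exists_w h𝔮 𝔞).choose

lemma ww_prim {𝔮 : Ideal (𝓞 M)} (h𝔮 : 𝔮 ≤ Ideal.span {algebraMap GaussianInt (𝓞 M) ⟨2, 2⟩})
    (𝔞 : Mq 𝔮) : prim (ww h𝔮 𝔞) := (exists_w h𝔮 𝔞).choose_spec.1

lemma ww_span {𝔮 : Ideal (𝓞 M)} (h𝔮 : 𝔮 ≤ Ideal.span {algebraMap GaussianInt (𝓞 M) ⟨2, 2⟩})
    (𝔞 : Mq 𝔮) : Ideal.relNorm GaussianInt (𝔞 : Ideal (𝓞 M)) = Ideal.span {ww h𝔮 𝔞} :=
  (exists_w h𝔮 𝔞).choose_spec.2

lemma ww_eq {𝔮 : Ideal (𝓞 M)} (h𝔮 : 𝔮 ≤ Ideal.span {algebraMap GaussianInt (𝓞 M) ⟨2, 2⟩})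
    (𝔞 : Mq 𝔮) {z : GaussianInt} (hz : prim z)
    (h : Ideal.relNorm GaussianInt (𝔞 : Ideal (𝓞 M)) = Ideal.span {z}) : ww h𝔮 𝔞 = z :=
  prim_unique (ww_prim h𝔮 𝔞) hz (by rw [← ww_span, h])

/-- the character -/
def Fc {𝔮 : Ideal (𝓞 M)} (h𝔮 : 𝔮 ≤ Ideal.span {algebraMap GaussianInt (𝓞 M) ⟨2, 2⟩}) :
    Mq 𝔮 →* ℂˣ where
  toFun 𝔞 := Units.mk0 (tc (ww h𝔮 𝔞) / (‖tc (ww h𝔮 𝔞)‖ : ℂ))
    (by
      have := tc_ne (prim_ne_zero (ww_prim h𝔮 𝔞))
      exact div_ne_zero this (by exact_mod_cast norm_ne_zero_iff.2 this))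
  map_one' := by
    ext
    rw [Units.val_mk0, Units.val_one, ww_eq h𝔮 1 prim_one, tc_one]
    · simp
    · show Ideal.relNorm GaussianInt (1 : Ideal (𝓞 M)) = _
      rw [map_one, Ideal.span_singleton_one, Ideal.one_eq_top]
  map_mul' 𝔞 𝔟 := by
    ext
    rw [Units.val_mk0, Units.val_mul, Units.val_mk0, Units.val_mk0,
      ww_eq h𝔮 (𝔞 * 𝔟) (prim_mul (ww_prim h𝔮 𝔞) (ww_prim h𝔮 𝔟)), tc_mul, norm_mul]
    · push_cast
      rw [mul_div_mul_comm]
    · show Ideal.relNorm GaussianInt ((𝔞 : Ideal (𝓞 M)) * (𝔟 : Ideal (𝓞 M))) = _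
      rw [map_mul, ww_span h𝔮, ww_span h𝔮, Ideal.span_singleton_mul_span_singleton]

lemma Fc_apply {𝔮 : Ideal (𝓞 M)} (h𝔮 : 𝔮 ≤ Ideal.span {algebraMap GaussianInt (𝓞 M) ⟨2, 2⟩})
    (𝔞 : Mq 𝔮) : ((Fc h𝔮 𝔞 : ℂˣ) : ℂ) = tc (ww h𝔮 𝔞) / (‖tc (ww h𝔮 𝔞)‖ : ℂ) := rfl

lemma Fc_mem {𝔮 : Ideal (𝓞 M)} (h𝔮 : 𝔮 ≤ Ideal.span {algebraMap GaussianInt (𝓞 M) ⟨2, 2⟩})
    (htop : 𝔮 ≠ ⊤) : Fc h𝔮 ∈ Dn (tyi (algebraMap GaussianInt (𝓞 M))) htop := by
  intro x
  ext
  rw [phT_coe, Fc_apply]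
  have h1 : (⟨2, 2⟩ : GaussianInt) ∣ Algebra.norm GaussianInt (x : 𝓞 M) - 1 := by
    apply norm_sub_one
    rw [← Ideal.mem_span_singleton]
    exact h𝔮 (T1_one x)
  have h2 : ww h𝔮 (pi1 htop x) = Algebra.norm GaussianInt (x : 𝓞 M) := by
    refine ww_eq h𝔮 _ ((prim_iff_dvd _).2 h1) ?_
    rw [pi1_coe, Ideal.relNorm_singleton, Algebra.intNorm_eq_norm]
  rw [h2, tc_norm, norm_prod]
  unfold ph
  push_cast
  rw [← Finset.prod_div_distrib]
  refine Finset.prod_congr rfl fun φ _ => ?_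
  rw [norm_pow, div_pow]
  push_cast
  rfl

lemma Fc_prime {𝔮 : Ideal (𝓞 M)} (h𝔮 : 𝔮 ≤ Ideal.span {algebraMap GaussianInt (𝓞 M) ⟨2, 2⟩})
    (𝔭 : Ideal (𝓞 M)) (h𝔭 : 𝔭.IsPrime) (h0 : 𝔭 ≠ ⊥) (hc : IsCoprime 𝔭 𝔮) (p : Nat.Primes)
    (z : GaussianInt) (hz : z ∈ Ip p) (hz𝔭 : algebraMap GaussianInt (𝓞 M) z ∈ 𝔭) :
    ∃ g : ℕ, 0 < g ∧ Ideal.absNorm 𝔭 = nrm z ^ g ∧
      ((Fc h𝔮 ⟨𝔭, hc⟩ : ℂˣ) : ℂ) = (tc z / (‖tc z‖ : ℂ)) ^ g := by
  obtain ⟨h1, h2, -, -⟩ := Ip_spec p.2 hz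
  have hm : (Ideal.span {z}).IsMaximal :=
    PrincipalIdealRing.isMaximal_of_irreducible h2.irreducible
  have : 𝔭.IsMaximal := Ring.DimensionLEOne.maximalOfPrime h0 h𝔭
  have : 𝔭.LiesOver (Ideal.span {z}) := by
    refine ⟨?_⟩
    refine hm.eq_of_le ?_ ?_
    · exact Ideal.IsPrime.ne_top inferInstance
    · rw [Ideal.span_singleton_le_iff_mem]
      exact hz𝔭
  have h3 := Ideal.relNorm_eq_pow_of_isMaximal 𝔭 (Ideal.span {z})
  refine ⟨𝔭.inertiaDeg GaussianInt, Ideal.inertiaDeg_pos _ _, ?_, ?_⟩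
  · rw [← Ideal.absNorm_relNorm (R := GaussianInt), h3, map_pow, absNorm_gauss]
  · have hpow : ∀ n : ℕ, prim (z ^ n) := by
      intro n
      induction n with
      | zero => rw [pow_zero]; exact prim_one
      | succ n ih => rw [pow_succ]; exact prim_mul ih h1
    rw [Fc_apply, ww_eq h𝔮 ⟨𝔭, hc⟩ (hpow (𝔭.inertiaDeg GaussianInt)), tc_pow, norm_pow, div_pow]
    · push_cast
      rfl
    · rw [← Ideal.span_singleton_pow]
      exact h3

end

theorem t_char : StChar := by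
  intro M _ _ ι₀ 𝔮 _ htop h𝔮
  letI : Algebra GaussianInt (𝓞 M) := ι₀.toAlgebra
  refine ⟨Fc h𝔮, Fc_mem h𝔮 htop, ?_⟩
  intro 𝔭 h𝔭 h0 hc p z hz hz𝔭
  exact Fc_prime h𝔮 𝔭 h𝔭 h0 hc p z hz hz𝔭

end

end Pool.Agent.N492.CZ
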